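import Pool.Agent.Results.MP_9227d9_nt.PrimePairsUniformEven

/-!
Consequences of the uniform theorem: the earlier hand-in on twin primes (fixed shift), and the
binary Goldbach statement.
-/

open Polynomial Filter

open scoped Classical

theorem Pool.Agent.Variants.MP_9227d9_nt.twinPrimesEven :
    ∀ (k : Type) [Field k] [Fintype k] [CharP k 2] (h : k[X]), h ≠ 0 → ∃ S : ℝ,
      HasProd (fun p : {p : k[X] // p.Monic ∧ Irreducible p} =>
        (1 - (if p.1 ∣ h then 1 else 2) / (Fintype.card k : ℝ) ^ p.1.natDegree) /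
          (1 - 1 / (Fintype.card k : ℝ) ^ p.1.natDegree) ^ 2) S ∧
      ((Fintype.card k = 2 → X * (X + 1) ∣ h) → 0 < S) ∧
      ∀ G : Finset k[X], Filter.Tendsto (fun n : ℕ => (n : ℝ) ^ 2 *
        (Set.ncard {P : k[X] | P.Monic ∧ P.natDegree = n ∧ Irreducible P ∧ Irreducible (P + h) ∧
          ∀ g ∈ G, Irreducible (P + g) → g = 0 ∨ g = h} : ℝ) /
          (Fintype.card k : ℝ) ^ n) Filter.atTop (nhds S) := by
  intro k _ _ _ h hh
  obtain ⟨S, c, hc, h1, h2⟩ := Pool.Agent.Results.MP_9227d9_nt.PrimePairsUniformEven.result k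
  refine ⟨S h, (h1 h hh).1, fun hx => hc.trans_le ((h1 h hh).2 hx), fun G => ?_⟩
  refine Metric.tendsto_nhds.2 fun ε hε => ?_
  have hm : 0 < max (S h) c := hc.trans_le (le_max_right _ _)
  obtain ⟨η, N, a1, a2⟩ := h2 (ε / 2 / max (S h) c) G.card (by positivity)
  filter_upwards [eventually_ge_atTop N, eventually_ge_atTop h.natDegree,
    eventually_ge_atTop (G.sup natDegree)] with n b1 b2 b3
  have b4 : (h.natDegree : ℝ) ≤ n := by exact_mod_cast b2
  have b5 := a2 n h G b1 hh (by nlinarith [mul_nonneg a1.le (Nat.cast_nonneg (α := ℝ) n)]) le_rfl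
    fun g hg => by
      have := Finset.le_sup (f := natDegree) hg
      omega
  rw [div_mul_cancel₀ _ hm.ne'] at b5
  rw [Real.dist_eq]
  linarith

theorem Pool.Agent.Variants.MP_9227d9_nt.goldbachEven (k : Type) [Field k] [Fintype k] [CharP k 2] :
    ∃ N : ℕ, ∀ M : k[X], M.Monic → N ≤ M.natDegree → (Fintype.card k = 2 → X * (X + 1) ∣ M) →
      ∃ P Q : k[X], P.Monic ∧ Q.Monic ∧ Irreducible P ∧ Irreducible Q ∧
        P.natDegree + 1 = M.natDegree ∧ Q.natDegree = M.natDegree ∧ M = P + Q := by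
  obtain ⟨S, c, hc, h1, h2⟩ := Pool.Agent.Results.MP_9227d9_nt.PrimePairsUniformEven.result k
  obtain ⟨η, N, a1, a2⟩ := h2 (1 / 2) 0 (by norm_num)
  obtain ⟨L, hL⟩ := exists_nat_ge (1 / η)
  refine ⟨N + L + 1, fun M hM hd hx => ?_⟩
  obtain ⟨n, hn⟩ : ∃ n, M.natDegree = n + 1 := ⟨M.natDegree - 1, by omega⟩
  have b1 : (L : ℝ) ≤ n := by exact_mod_cast (by omega : L ≤ n)
  have b2 := (div_le_iff₀ a1).1 (hL.trans b1)
  have b3 := (h1 M hM.ne_zero).2 hx
  have b4 := a2 n M ∅ (by omega) hM.ne_zero (by rw [hn]; push_cast; linarith) (by simp) (by simp)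
  rw [max_eq_left b3] at b4
  obtain ⟨P, p1, p2, p3, p4, -⟩ := Set.nonempty_of_ncard_ne_zero
    (s := {P : k[X] | P.Monic ∧ P.natDegree = n ∧ Irreducible P ∧ Irreducible (P + M) ∧
      ∀ g ∈ (∅ : Finset k[X]), Irreducible (P + g) → g = 0 ∨ g = M}) fun e => by
    rw [e] at b4
    have := (abs_le.1 b4).1
    simp only [Nat.cast_zero, mul_zero, zero_div] at this
    linarith
  have b5 : P.natDegree < M.natDegree := by omega
  refine ⟨P, P + M, p1, hM.add_of_right (degree_lt_degree b5), p3, p4, by omega,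
    natDegree_add_eq_right_of_natDegree_lt b5, ?_⟩
  rw [← add_assoc, CharTwo.add_self_eq_zero, zero_add]
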